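import Pool.Agent.Helper704.LG.Main
import Pool.Agent.CTH.Lam3

set_option autoImplicit false
open MeasureTheory Finset

namespace Pool.Agent.LG704

open Helper912.LG

theorem l3 : Helper912.LG.L3 := by
  obtain ⟨C, hC0, hC⟩ := Pool.Agent.CTH.lam3
  refine ⟨C, hC0, fun f g h hf hg hh ε N hε hN => ?_⟩
  have h1 := hC f g h ⟨hf.meas, hf.supp, hf.bdd⟩ ⟨hg.meas, hg.supp, hg.bdd⟩
    ⟨hh.meas, hh.supp, hh.bdd⟩ ε N hε hN
  unfold T3
  have e : ∀ s, kap ε N s = Pool.Agent.CTH.trunc ε N s := by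
    intro s
    unfold kap Pool.Agent.CTH.trunc
    simp only [one_div]
  simp only [e]
  refine h1.trans (le_of_eq ?_)
  unfold nm Pool.Agent.CTH.N3
  ring

theorem p1 : Helper912.LG.P1 := P1_of_L3 l3

end Pool.Agent.LG704
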