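import Pool.Agent.Helper704.LG.Pre

set_option autoImplicit false
set_option maxHeartbeats 4000000
set_option linter.unusedVariables false
open MeasureTheory Finset

namespace Pool.Agent.LG704

open Helper912.LG

noncomputable section









/-- weighted indicator of a closed interval -/
def h267ii (a b c : ℝ) : ℝ → ℝ := (Set.Icc a b).indicator (fun _ => c)

theorem h267ii_nonneg (a b c : ℝ) (hc : 0 ≤ c) (s : ℝ) : 0 ≤ h267ii a b c s :=
  Set.indicator_nonneg (fun _ _ => hc) s

theorem h267ii_mem {a b c s : ℝ} (h1 : a ≤ s) (h2 : s ≤ b) : h267ii a b c s = c :=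
  Set.indicator_of_mem (show s ∈ Set.Icc a b from ⟨h1, h2⟩) _

theorem h267ii_int (a b c : ℝ) : Integrable (h267ii a b c) := by
  unfold h267ii
  apply IntegrableOn.integrable_indicator _ measurableSet_Icc
  exact integrableOn_const (by rw [Real.volume_Icc]; exact ENNReal.ofReal_ne_top)

theorem h267ii_val (a b c : ℝ) (h : a ≤ b) : ∫ s, h267ii a b c s = (b - a) * c := by
  unfold h267ii
  rw [integral_indicator_const c measurableSet_Icc, Real.volume_real_Icc_of_le h, smul_eq_mul]

theorem h267_pt (ε N t : ℝ) (hε : 0 < ε) (hN : ε < N) (ht : ε < |t|) (ht2 : |t| ≤ N / 2) (s : ℝ) :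
    |er ε N t s| ≤ (1 / |t|) * (h267ii (-t-ε) (-t+ε) (1/ε) s + h267ii (-ε) ε (1/ε) s
      + h267ii (N-|t|) N (1/(N-|t|)) s + h267ii (-N) (-(N-|t|)) (1/(N-|t|)) s
      + h267ii (N-|t|-t) (N-t) (1/(N-|t|)) s + h267ii (-N-t) (-(N-|t|)-t) (1/(N-|t|)) s) := by
  have ht0 : 0 < |t| := lt_trans hε ht
  have htne : t ≠ 0 := abs_pos.mp ht0
  have hNt : 0 < N - |t| := by linarith
  have he : 0 ≤ 1/ε := by positivity
  have hn : 0 ≤ 1/(N-|t|) := by positivity
  have p1 := h267ii_nonneg (-t-ε) (-t+ε) (1/ε) he s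
  have p2 := h267ii_nonneg (-ε) ε (1/ε) he s
  have p3 := h267ii_nonneg (N-|t|) N (1/(N-|t|)) hn s
  have p4 := h267ii_nonneg (-N) (-(N-|t|)) (1/(N-|t|)) hn s
  have p5 := h267ii_nonneg (N-|t|-t) (N-t) (1/(N-|t|)) hn s
  have p6 := h267ii_nonneg (-N-t) (-(N-|t|)-t) (1/(N-|t|)) hn s
  have hti : 0 ≤ 1/|t| := by positivity
  have hts := neg_abs_le t
  have hts' := le_abs_self t
  unfold er kap
  by_cases hP : ε < |s| ∧ |s| < N
  · have hs0 : 0 < |s| := lt_trans hε hP.1
    have hsne : s ≠ 0 := abs_pos.mp hs0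
    by_cases hQ : ε < |s+t| ∧ |s+t| < N
    · have hst0 : 0 < |s+t| := lt_trans hε hQ.1
      have hstne : s+t ≠ 0 := abs_pos.mp hst0
      rw [if_pos hP, if_pos hQ]
      have : 1/s * (1/(s+t)) - 1/t * (1/s - 1/(s+t)) = 0 := by
        field_simp
        ring
      rw [this, abs_zero]
      apply mul_nonneg hti
      linarith
    · rw [if_pos hP, if_neg hQ]
      have e : |1/s * 0 - 1/t * (1/s - 0)| = 1/|t| * (1/|s|) := by
        have : 1/s * 0 - 1/t * (1/s - 0) = -((1/t) * (1/s)) := by ring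
        rw [this, abs_neg, abs_mul, abs_div, abs_div, abs_one]
      rw [e]
      apply mul_le_mul_of_nonneg_left _ hti
      by_cases h1 : |s+t| ≤ ε
      · have h2 := abs_le.mp h1
        rw [h267ii_mem (a := -t-ε) (b := -t+ε) (by linarith [h2.1]) (by linarith [h2.2])]
        have : 1/|s| ≤ 1/ε := one_div_le_one_div_of_le hε hP.1.le
        linarith
      · have h3 : N ≤ |s+t| := by
          by_contra h4
          exact hQ ⟨lt_of_not_ge h1, lt_of_not_ge h4⟩
        have h5 : N - |t| ≤ |s| := by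
          have := abs_add_le s t
          linarith
        have h6 : 1/|s| ≤ 1/(N-|t|) := one_div_le_one_div_of_le hNt h5
        rcases le_total 0 s with h0 | h0
        · rw [abs_of_nonneg h0] at h5 h6 hP ⊢
          rw [h267ii_mem (a := N-|t|) (b := N) h5 hP.2.le]
          linarith
        · rw [abs_of_nonpos h0] at h5 h6 hP ⊢
          rw [h267ii_mem (a := -N) (b := -(N-|t|)) (by linarith [hP.2]) (by linarith)]
          linarith
  · by_cases hQ : ε < |s+t| ∧ |s+t| < N
    · have hst0 : 0 < |s+t| := lt_trans hε hQ.1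
      rw [if_neg hP, if_pos hQ]
      have e : |0 * (1/(s+t)) - 1/t * (0 - 1/(s+t))| = 1/|t| * (1/|s+t|) := by
        have : 0 * (1/(s+t)) - 1/t * (0 - 1/(s+t)) = (1/t) * (1/(s+t)) := by ring
        rw [this, abs_mul, abs_div, abs_div, abs_one]
      rw [e]
      apply mul_le_mul_of_nonneg_left _ hti
      by_cases h1 : |s| ≤ ε
      · have h2 := abs_le.mp h1
        rw [h267ii_mem (a := -ε) (b := ε) h2.1 h2.2]
        have : 1/|s+t| ≤ 1/ε := one_div_le_one_div_of_le hε hQ.1.le
        linarith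
      · have h3 : N ≤ |s| := by
          by_contra h4
          exact hP ⟨lt_of_not_ge h1, lt_of_not_ge h4⟩
        have h5 : N - |t| ≤ |s+t| := by
          have h7 : |s| ≤ |s+t| + |t| := by
            have := abs_sub (s+t) t
            have e2 : s + t - t = s := by ring
            rw [e2] at this
            exact this
          linarith
        have h6 : 1/|s+t| ≤ 1/(N-|t|) := one_div_le_one_div_of_le hNt h5
        rcases le_total 0 (s+t) with h0 | h0
        · rw [abs_of_nonneg h0] at h5 h6 hQ ⊢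
          rw [h267ii_mem (a := N-|t|-t) (b := N-t) (by linarith) (by linarith [hQ.2])]
          linarith
        · rw [abs_of_nonpos h0] at h5 h6 hQ ⊢
          rw [h267ii_mem (a := -N-t) (b := -(N-|t|)-t) (by linarith [hQ.2]) (by linarith)]
          linarith
    · rw [if_neg hP, if_neg hQ]
      have : (0:ℝ) * 0 - 1/t * (0 - 0) = 0 := by ring
      rw [this, abs_zero]
      apply mul_nonneg hti
      linarith

theorem er_L1 (ε N t : ℝ) (hε : 0 < ε) (hN : ε < N) (ht : ε < |t|) (ht2 : |t| ≤ N / 2) :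
    Integrable (er ε N t) ∧ ∫ s, |er ε N t s| ≤ 8 / |t| := by
  have ht0 : 0 < |t| := lt_trans hε ht
  have hNt : 0 < N - |t| := by linarith
  have i1 := h267ii_int (-t-ε) (-t+ε) (1/ε)
  have i2 := h267ii_int (-ε) ε (1/ε)
  have i3 := h267ii_int (N-|t|) N (1/(N-|t|))
  have i4 := h267ii_int (-N) (-(N-|t|)) (1/(N-|t|))
  have i5 := h267ii_int (N-|t|-t) (N-t) (1/(N-|t|))
  have i6 := h267ii_int (-N-t) (-(N-|t|)-t) (1/(N-|t|))
  have j2 := i1.add i2
  have j3 := j2.add i3
  have j4 := j3.add i4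
  have j5 := j4.add i5
  have j6 := j5.add i6
  have hG : Integrable (fun s => (1 / |t|) * (h267ii (-t-ε) (-t+ε) (1/ε) s + h267ii (-ε) ε (1/ε) s
      + h267ii (N-|t|) N (1/(N-|t|)) s + h267ii (-N) (-(N-|t|)) (1/(N-|t|)) s
      + h267ii (N-|t|-t) (N-t) (1/(N-|t|)) s + h267ii (-N-t) (-(N-|t|)-t) (1/(N-|t|)) s)) :=
    j6.const_mul (1/|t|)
  have hpt := h267_pt ε N t hε hN ht ht2
  have hmeas : Measurable (er ε N t) := by
    unfold er
    have m1 := kap_meas ε N
    have m2 : Measurable (fun s => kap ε N (s + t)) := m1.comp (measurable_id.add_const t)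
    exact (m1.mul m2).sub ((m1.sub m2).const_mul (1/t))
  have hI : Integrable (er ε N t) :=
    hG.mono' hmeas.aestronglyMeasurable (Filter.Eventually.of_forall (fun s => by
      rw [Real.norm_eq_abs]; exact hpt s))
  refine ⟨hI, ?_⟩
  refine le_trans (integral_mono hI.abs hG hpt) ?_
  rw [integral_const_mul]
  have hsum : ∫ s, (h267ii (-t-ε) (-t+ε) (1/ε) s + h267ii (-ε) ε (1/ε) s
      + h267ii (N-|t|) N (1/(N-|t|)) s + h267ii (-N) (-(N-|t|)) (1/(N-|t|)) s
      + h267ii (N-|t|-t) (N-t) (1/(N-|t|)) s + h267ii (-N-t) (-(N-|t|)-t) (1/(N-|t|)) s)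
      = 4 + 4 * (|t| / (N - |t|)) := by
    have s6 := integral_add j5 i6
    have s5 := integral_add j4 i5
    have s4 := integral_add j3 i4
    have s3 := integral_add j2 i3
    have s2 := integral_add i1 i2
    simp only [Pi.add_apply] at s6 s5 s4 s3 s2
    rw [s6, s5, s4, s3, s2]
    rw [h267ii_val _ _ _ (by linarith), h267ii_val _ _ _ (by linarith),
      h267ii_val _ _ _ (by linarith), h267ii_val _ _ _ (by linarith),
      h267ii_val _ _ _ (by linarith), h267ii_val _ _ _ (by linarith)]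
    field_simp
    ring
  rw [hsum]
  have hle : |t| / (N - |t|) ≤ 1 := by
    rw [div_le_one hNt]
    linarith
  have : 8 / |t| = 1/|t| * 8 := by ring
  rw [this]
  apply mul_le_mul_of_nonneg_left _ (by positivity)
  linarith

end

end Pool.Agent.LG704
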