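import Pool.Agent.Helper704.LG.Pre

set_option autoImplicit false
set_option maxHeartbeats 4000000
set_option linter.unusedVariables false
open MeasureTheory Finset

namespace Pool.Agent.LG704

open Helper912.LG

noncomputable section



/-- integrability of the integrand for bounded measurable kernels -/
theorem T3_integrable (κ : ℝ → ℝ) (hκ : Measurable κ) (B : ℝ) (hB : ∀ s, |κ s| ≤ B)
    (f g h : ℝ × ℝ → ℝ) (hf : Ni f) (hg : Ni g) (hh : Ni h) :
    Integrable (fun p : ℝ × ℝ × ℝ => Helper912.Z.F3 f g h p * κ (p.1 + p.2.1 + p.2.2)) := by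
  obtain ⟨Mf, hMf⟩ := hf.bdd
  obtain ⟨Mg, hMg⟩ := hg.bdd
  obtain ⟨Mh, hMh⟩ := hh.bdd
  have hMf0 : 0 ≤ Mf := le_trans (abs_nonneg _) (hMf 0)
  have hMg0 : 0 ≤ Mg := le_trans (abs_nonneg _) (hMg 0)
  have hMh0 : 0 ≤ Mh := le_trans (abs_nonneg _) (hMh 0)
  have hB0 : 0 ≤ B := le_trans (abs_nonneg _) (hB 0)
  have hfs : ∃ R : ℝ, ∀ p : ℝ × ℝ, f p ≠ 0 → ‖p‖ ≤ R := by
    obtain ⟨R, hR⟩ := (IsCompact.isBounded hf.supp).subset_closedBall 0
    refine ⟨R, fun p hp => ?_⟩
    have := hR (subset_tsupport f hp)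
    simpa using this
  have hgs : ∃ R : ℝ, ∀ p : ℝ × ℝ, g p ≠ 0 → ‖p‖ ≤ R := by
    obtain ⟨R, hR⟩ := (IsCompact.isBounded hg.supp).subset_closedBall 0
    refine ⟨R, fun p hp => ?_⟩
    have := hR (subset_tsupport g hp)
    simpa using this
  obtain ⟨R1, hR1⟩ := hfs
  obtain ⟨R2, hR2⟩ := hgs
  have hmeas : Measurable
      (fun p : ℝ × ℝ × ℝ => Helper912.Z.F3 f g h p * κ (p.1 + p.2.1 + p.2.2)) := by
    unfold Helper912.Z.F3
    have m1 : Measurable (fun p : ℝ × ℝ × ℝ => f (p.1, p.2.1)) := hf.meas.comp (by fun_prop)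
    have m2 : Measurable (fun p : ℝ × ℝ × ℝ => g (p.2.1, p.2.2)) := hg.meas.comp (by fun_prop)
    have m3 : Measurable (fun p : ℝ × ℝ × ℝ => h (p.2.2, p.1)) := hh.meas.comp (by fun_prop)
    have m4 : Measurable (fun p : ℝ × ℝ × ℝ => κ (p.1 + p.2.1 + p.2.2)) :=
      hκ.comp (by fun_prop)
    exact ((m1.mul m2).mul m3).mul m4
  set R := max R1 R2 with hRdef
  set S : Set (ℝ × ℝ × ℝ) := Metric.closedBall 0 R with hS
  have hSm : MeasurableSet S := Metric.isClosed_closedBall.measurableSet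
  have hSf : volume S ≠ ⊤ := (isCompact_closedBall (0 : ℝ × ℝ × ℝ) R).measure_lt_top.ne
  have hint : Integrable (S.indicator (fun _ : ℝ × ℝ × ℝ => Mf * Mg * Mh * B)) := by
    rw [integrable_indicator_iff hSm]
    exact integrableOn_const hSf
  refine hint.mono' hmeas.aestronglyMeasurable (Filter.Eventually.of_forall fun p => ?_)
  by_cases hp : p ∈ S
  · rw [Set.indicator_of_mem hp]
    unfold Helper912.Z.F3
    rw [Real.norm_eq_abs, abs_mul, abs_mul, abs_mul]
    gcongr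
    · exact hMf _
    · exact hMg _
    · exact hMh _
    · exact hB _
  · rw [Set.indicator_of_notMem hp]
    have : Helper912.Z.F3 f g h p = 0 := by
      by_contra hne
      unfold Helper912.Z.F3 at hne
      have h1 : f (p.1, p.2.1) ≠ 0 := fun h => hne (by rw [h]; ring)
      have h2 : g (p.2.1, p.2.2) ≠ 0 := fun h => hne (by rw [h]; ring)
      have a1 := hR1 _ h1
      have a2 := hR2 _ h2
      apply hp
      rw [hS, mem_closedBall_zero_iff]
      obtain ⟨x, y, z⟩ := p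
      simp only [Prod.norm_mk, max_le_iff] at a1 a2 ⊢
      exact ⟨a1.1.trans (le_max_left _ _), a1.2.trans (le_max_left _ _),
        a2.2.trans (le_max_right _ _)⟩
    rw [this]
    simp

end

end Pool.Agent.LG704
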