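import Pool.Agent.Helper704.LG.Pre
import Pool.Agent.Helper704.LG.K_int

set_option autoImplicit false
set_option maxHeartbeats 4000000
set_option linter.unusedVariables false
open MeasureTheory Finset

namespace Pool.Agent.LG704

open Helper912.LG

noncomputable section




open scoped ENNReal

theorem eLpNorm3 {E : Type*} [MeasureSpace E] (f : E → ℝ) :
    eLpNorm f 3 volume = (∫⁻ x, ‖f x‖ₑ ^ (3:ℝ)) ^ (1 / (3:ℝ)) := by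
  rw [eLpNorm_eq_lintegral_rpow_enorm_toReal (by norm_num) (by norm_num)]
  norm_num

theorem fin3 {f : ℝ × ℝ → ℝ} (hf : Ni f) : eLpNorm f 3 volume ≠ ⊤ := by
  obtain ⟨M, hM⟩ := hf.bdd
  rw [eLpNorm3]
  apply ENNReal.rpow_ne_top_of_nonneg (by norm_num)
  have hK : IsCompact (tsupport f) := hf.supp
  have hle : ∀ x, ‖f x‖ₑ ^ (3:ℝ) ≤ (tsupport f).indicator (fun _ => (ENNReal.ofReal M) ^ (3:ℝ)) x := by
    intro x
    by_cases hx : x ∈ tsupport f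
    · rw [Set.indicator_of_mem hx]
      apply ENNReal.rpow_le_rpow _ (by norm_num)
      rw [← ofReal_norm]
      exact ENNReal.ofReal_le_ofReal (hM x)
    · rw [Set.indicator_of_notMem hx, image_eq_zero_of_notMem_tsupport hx]
      simp
  refine ne_top_of_le_ne_top ?_ (lintegral_mono hle)
  rw [lintegral_indicator (isClosed_tsupport f).measurableSet, lintegral_const]
  refine ENNReal.mul_ne_top (ENNReal.rpow_ne_top_of_nonneg (by norm_num) ENNReal.ofReal_ne_top) ?_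
  rw [Measure.restrict_apply_univ]
  exact hK.measure_lt_top.ne



/-- trivial Hölder bound -/
theorem T3_hold (b : ℝ → ℝ) (hb : Measurable b) (hi : Integrable b)
    (f g h : ℝ × ℝ → ℝ) (hf : Ni f) (hg : Ni g) (hh : Ni h) :
    |T3 b f g h| ≤ (∫ s, |b s|) * nm 3 f * nm 3 g * nm 3 h := by
  set I : ℝ≥0∞ := ∫⁻ s, ‖b s‖ₑ with hI
  have hIfin : I ≠ ⊤ := hi.2.ne
  have hbm : Measurable (fun s => ‖b s‖ₑ) := hb.enorm
  have hfm : Measurable (fun p => ‖f p‖ₑ ^ (3:ℝ)) := hf.meas.enorm.pow_const _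
  have hgm : Measurable (fun p => ‖g p‖ₑ ^ (3:ℝ)) := hg.meas.enorm.pow_const _
  have hhm : Measurable (fun p => ‖h p‖ₑ ^ (3:ℝ)) := hh.meas.enorm.pow_const _
  have hsum : Measurable (fun p : ℝ × ℝ × ℝ => ‖b (p.1 + p.2.1 + p.2.2)‖ₑ) :=
    hbm.comp (by fun_prop)
  have hA1 : Measurable (fun p : ℝ × ℝ × ℝ => ‖f (p.1, p.2.1)‖ₑ ^ (3:ℝ) * ‖b (p.1 + p.2.1 + p.2.2)‖ₑ) :=
    (hfm.comp (by fun_prop : Measurable (fun p : ℝ × ℝ × ℝ => (p.1, p.2.1)))).mul hsum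
  have hA2 : Measurable (fun p : ℝ × ℝ × ℝ => ‖g (p.2.1, p.2.2)‖ₑ ^ (3:ℝ) * ‖b (p.1 + p.2.1 + p.2.2)‖ₑ) :=
    (hgm.comp (by fun_prop : Measurable (fun p : ℝ × ℝ × ℝ => (p.2.1, p.2.2)))).mul hsum
  have hA3 : Measurable (fun p : ℝ × ℝ × ℝ => ‖h (p.2.2, p.1)‖ₑ ^ (3:ℝ) * ‖b (p.1 + p.2.1 + p.2.2)‖ₑ) :=
    (hhm.comp (by fun_prop : Measurable (fun p : ℝ × ℝ × ℝ => (p.2.2, p.1)))).mul hsum
  have hF : ∫⁻ p : ℝ × ℝ × ℝ, ‖f (p.1, p.2.1)‖ₑ ^ (3:ℝ) * ‖b (p.1 + p.2.1 + p.2.2)‖ₑ =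
      (∫⁻ q, ‖f q‖ₑ ^ (3:ℝ)) * I := by
    rw [Measure.volume_eq_prod, lintegral_prod _ hA1.aemeasurable]
    have h1 : ∀ x : ℝ, ∫⁻ q : ℝ × ℝ, ‖f (x, q.1)‖ₑ ^ (3:ℝ) * ‖b (x + q.1 + q.2)‖ₑ =
        (∫⁻ y, ‖f (x, y)‖ₑ ^ (3:ℝ)) * I := by
      intro x
      have hm1 : Measurable (fun q : ℝ × ℝ => ‖f (x, q.1)‖ₑ ^ (3:ℝ) * ‖b (x + q.1 + q.2)‖ₑ) :=
        hA1.comp (measurable_prodMk_left (x := x))
      rw [Measure.volume_eq_prod, lintegral_prod _ hm1.aemeasurable]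
      have h2 : ∀ y : ℝ, ∫⁻ z : ℝ, ‖f (x, y)‖ₑ ^ (3:ℝ) * ‖b (x + y + z)‖ₑ =
          ‖f (x, y)‖ₑ ^ (3:ℝ) * I := by
        intro y
        have hm2 : Measurable (fun z : ℝ => ‖b (x + y + z)‖ₑ) :=
          hbm.comp (by fun_prop : Measurable (fun z : ℝ => x + y + z))
        rw [lintegral_const_mul _ hm2,
          lintegral_add_left_eq_self (fun z => ‖b z‖ₑ) (x + y)]
      simp only [h2]
      have hm4 : Measurable (fun y : ℝ => ‖f (x, y)‖ₑ ^ (3:ℝ)) :=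
        hfm.comp (by fun_prop : Measurable (fun y : ℝ => (x, y)))
      rw [lintegral_mul_const _ hm4]
    simp only [h1]
    rw [lintegral_mul_const _ (hfm.lintegral_prod_right'), Measure.volume_eq_prod,
      lintegral_prod _ hfm.aemeasurable]
  have hG : ∫⁻ p : ℝ × ℝ × ℝ, ‖g (p.2.1, p.2.2)‖ₑ ^ (3:ℝ) * ‖b (p.1 + p.2.1 + p.2.2)‖ₑ =
      (∫⁻ q, ‖g q‖ₑ ^ (3:ℝ)) * I := by
    rw [Measure.volume_eq_prod, lintegral_prod_symm _ hA2.aemeasurable]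
    have h1 : ∀ q : ℝ × ℝ, ∫⁻ x : ℝ, ‖g (q.1, q.2)‖ₑ ^ (3:ℝ) * ‖b (x + q.1 + q.2)‖ₑ =
        ‖g q‖ₑ ^ (3:ℝ) * I := by
      intro q
      have hm1 : Measurable (fun x : ℝ => ‖b (x + q.1 + q.2)‖ₑ) :=
        hbm.comp (by fun_prop : Measurable (fun x : ℝ => x + q.1 + q.2))
      rw [lintegral_const_mul _ hm1]
      have := lintegral_add_right_eq_self (μ := (volume : Measure ℝ)) (fun z => ‖b z‖ₑ) (q.1 + q.2)
      simp only [← add_assoc] at this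
      rw [this]
    simp only [h1]
    rw [lintegral_mul_const _ hgm]
  have hH : ∫⁻ p : ℝ × ℝ × ℝ, ‖h (p.2.2, p.1)‖ₑ ^ (3:ℝ) * ‖b (p.1 + p.2.1 + p.2.2)‖ₑ =
      (∫⁻ q, ‖h q‖ₑ ^ (3:ℝ)) * I := by
    rw [Measure.volume_eq_prod, lintegral_prod _ hA3.aemeasurable]
    have h1 : ∀ x : ℝ, ∫⁻ q : ℝ × ℝ, ‖h (q.2, x)‖ₑ ^ (3:ℝ) * ‖b (x + q.1 + q.2)‖ₑ =
        (∫⁻ z, ‖h (z, x)‖ₑ ^ (3:ℝ)) * I := by
      intro x
      have hm1 : Measurable (fun q : ℝ × ℝ => ‖h (q.2, x)‖ₑ ^ (3:ℝ) * ‖b (x + q.1 + q.2)‖ₑ) :=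
        hA3.comp (measurable_prodMk_left (x := x))
      rw [Measure.volume_eq_prod, lintegral_prod_symm _ hm1.aemeasurable]
      have h2 : ∀ z : ℝ, ∫⁻ y : ℝ, ‖h (z, x)‖ₑ ^ (3:ℝ) * ‖b (x + y + z)‖ₑ =
          ‖h (z, x)‖ₑ ^ (3:ℝ) * I := by
        intro z
        have hm2 : Measurable (fun y : ℝ => ‖b (x + y + z)‖ₑ) :=
          hbm.comp (by fun_prop : Measurable (fun y : ℝ => x + y + z))
        rw [lintegral_const_mul _ hm2]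
        have := lintegral_add_left_eq_self (μ := (volume : Measure ℝ)) (fun y => ‖b y‖ₑ) (x + z)
        rw [hI, ← this]
        congr 1
        apply lintegral_congr
        intro y
        rw [show x + y + z = x + z + y by ring]
      simp only [h2]
      have hm3 : Measurable (fun z : ℝ => ‖h (z, x)‖ₑ ^ (3:ℝ)) :=
        hhm.comp (by fun_prop : Measurable (fun z : ℝ => (z, x)))
      rw [lintegral_mul_const _ hm3]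
    simp only [h1]
    rw [lintegral_mul_const _ (hhm.lintegral_prod_left'), Measure.volume_eq_prod,
      lintegral_prod_symm _ hhm.aemeasurable]
  -- Hölder
  let A : Fin 3 → ℝ × ℝ × ℝ → ℝ≥0∞ := ![fun p => ‖f (p.1, p.2.1)‖ₑ ^ (3:ℝ) * ‖b (p.1 + p.2.1 + p.2.2)‖ₑ,
    fun p => ‖g (p.2.1, p.2.2)‖ₑ ^ (3:ℝ) * ‖b (p.1 + p.2.1 + p.2.2)‖ₑ,
    fun p => ‖h (p.2.2, p.1)‖ₑ ^ (3:ℝ) * ‖b (p.1 + p.2.1 + p.2.2)‖ₑ]
  have hAm : ∀ i ∈ (Finset.univ : Finset (Fin 3)), AEMeasurable (A i) volume := by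
    intro i _
    fin_cases i
    · exact hA1.aemeasurable
    · exact hA2.aemeasurable
    · exact hA3.aemeasurable
  have hold := ENNReal.lintegral_prod_norm_pow_le (Finset.univ : Finset (Fin 3)) hAm
    (p := fun _ => 1/3) (by simp) (by intro i _; norm_num)
  rw [Fin.prod_univ_three] at hold
  simp only [Fin.prod_univ_three] at hold
  have hroot : ∀ x y : ℝ≥0∞, (x ^ (3:ℝ) * y) ^ (1/3:ℝ) = x * y ^ (1/3:ℝ) := by
    intro x y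
    rw [ENNReal.mul_rpow_of_nonneg _ _ (by norm_num), ← ENNReal.rpow_mul]
    norm_num
  have hcube : ∀ y : ℝ≥0∞, y ^ (1/3:ℝ) * y ^ (1/3:ℝ) * y ^ (1/3:ℝ) = y := by
    intro y
    rw [← ENNReal.rpow_add_of_nonneg _ _ (by norm_num) (by norm_num),
      ← ENNReal.rpow_add_of_nonneg _ _ (by norm_num) (by norm_num)]
    norm_num
  have hpt : ∀ p : ℝ × ℝ × ℝ, ‖Helper912.Z.F3 f g h p * b (p.1 + p.2.1 + p.2.2)‖ₑ =
      A 0 p ^ (1/3:ℝ) * A 1 p ^ (1/3:ℝ) * A 2 p ^ (1/3:ℝ) := by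
    intro p
    show _ = (‖f (p.1, p.2.1)‖ₑ ^ (3:ℝ) * ‖b (p.1 + p.2.1 + p.2.2)‖ₑ) ^ (1/3:ℝ) *
      (‖g (p.2.1, p.2.2)‖ₑ ^ (3:ℝ) * ‖b (p.1 + p.2.1 + p.2.2)‖ₑ) ^ (1/3:ℝ) *
      (‖h (p.2.2, p.1)‖ₑ ^ (3:ℝ) * ‖b (p.1 + p.2.1 + p.2.2)‖ₑ) ^ (1/3:ℝ)
    rw [hroot, hroot, hroot]
    unfold Helper912.Z.F3
    rw [enorm_mul, enorm_mul, enorm_mul]
    have := hcube (‖b (p.1 + p.2.1 + p.2.2)‖ₑ)
    calc _ = ‖f (p.1, p.2.1)‖ₑ * ‖g (p.2.1, p.2.2)‖ₑ * ‖h (p.2.2, p.1)‖ₑ *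
        (‖b (p.1 + p.2.1 + p.2.2)‖ₑ ^ (1/3:ℝ) * ‖b (p.1 + p.2.1 + p.2.2)‖ₑ ^ (1/3:ℝ) *
          ‖b (p.1 + p.2.1 + p.2.2)‖ₑ ^ (1/3:ℝ)) := by rw [this]
      _ = _ := by ring
  have hmain : ‖T3 b f g h‖ₑ ≤ I * eLpNorm f 3 volume * eLpNorm g 3 volume * eLpNorm h 3 volume := by
    unfold T3
    refine (enorm_integral_le_lintegral_enorm _).trans ?_
    simp only [hpt]
    refine hold.trans ?_
    have e0 : ∫⁻ p, A 0 p = (∫⁻ q, ‖f q‖ₑ ^ (3:ℝ)) * I := hF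
    have e1 : ∫⁻ p, A 1 p = (∫⁻ q, ‖g q‖ₑ ^ (3:ℝ)) * I := hG
    have e2 : ∫⁻ p, A 2 p = (∫⁻ q, ‖h q‖ₑ ^ (3:ℝ)) * I := hH
    rw [e0, e1, e2, eLpNorm3, eLpNorm3, eLpNorm3, ENNReal.mul_rpow_of_nonneg _ _ (by norm_num),
      ENNReal.mul_rpow_of_nonneg _ _ (by norm_num), ENNReal.mul_rpow_of_nonneg _ _ (by norm_num)]
    have := hcube I
    apply le_of_eq
    calc _ = (I ^ (1/3:ℝ) * I ^ (1/3:ℝ) * I ^ (1/3:ℝ)) * (∫⁻ q, ‖f q‖ₑ ^ (3:ℝ)) ^ (1/3:ℝ) *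
        (∫⁻ q, ‖g q‖ₑ ^ (3:ℝ)) ^ (1/3:ℝ) * (∫⁻ q, ‖h q‖ₑ ^ (3:ℝ)) ^ (1/3:ℝ) := by ring
      _ = _ := by rw [this]
  have hfin := ENNReal.toReal_mono (ENNReal.mul_ne_top (ENNReal.mul_ne_top
    (ENNReal.mul_ne_top hIfin (fin3 hf)) (fin3 hg)) (fin3 hh)) hmain
  rw [ENNReal.toReal_mul, ENNReal.toReal_mul, ENNReal.toReal_mul, toReal_enorm, Real.norm_eq_abs] at hfin
  have hIr : ∫ s, |b s| = I.toReal := by
    have := integral_norm_eq_lintegral_enorm (μ := (volume : Measure ℝ)) hi.aestronglyMeasurable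
    simpa [Real.norm_eq_abs] using this
  rw [hIr]
  exact hfin

end

end Pool.Agent.LG704
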