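import Pool.Agent.Helper704.LG.Pre

set_option autoImplicit false
set_option maxHeartbeats 4000000
open MeasureTheory Finset

namespace Pool.Agent.LG704

open Helper912.LG

noncomputable section

theorem kap_aux (F : ℝ → ℝ) (ε N v : ℝ) (hε : 0 < ε) (hN : ε < N)
    (hF : ContinuousOn F (Set.Icc ε N)) (hv : ∫ s in ε..N, F s = v) :
    Integrable (fun s => (Set.Ioo ε N).indicator F s + (Set.Ioo ε N).indicator F (-s)) ∧
    ∫ s, ((Set.Ioo ε N).indicator F s + (Set.Ioo ε N).indicator F (-s)) = 2 * v := by
  have i1 : Integrable ((Set.Ioo ε N).indicator F) := by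
    rw [integrable_indicator_iff measurableSet_Ioo]
    exact (hF.integrableOn_Icc).mono_set Set.Ioo_subset_Icc_self
  have i2 : Integrable (fun s => (Set.Ioo ε N).indicator F (-s)) := i1.comp_neg
  refine ⟨i1.add i2, ?_⟩
  have e1 : ∫ s, (Set.Ioo ε N).indicator F s = v := by
    rw [integral_indicator measurableSet_Ioo, ← integral_Ioc_eq_integral_Ioo,
      ← intervalIntegral.integral_of_le hN.le, hv]
  rw [integral_add i1 i2, integral_neg_eq_self (fun s => (Set.Ioo ε N).indicator F s), e1]
  ring

theorem kap_L1 (ε N : ℝ) (hε : 0 < ε) (hN : ε < N) :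
    Integrable (kap ε N) ∧ ∫ s, |kap ε N s| = 2 * Real.log (N / ε) := by
  have hN0 : 0 < N := hε.trans hN
  have key := kap_aux (fun s => 1 / s) ε N (Real.log (N / ε)) hε hN
    (by
      refine ContinuousOn.div continuousOn_const continuousOn_id ?_
      intro s hs
      exact (hε.trans_le hs.1).ne')
    (integral_one_div (by
      rw [Set.uIcc_of_le hN.le]
      intro h
      exact absurd h.1 (not_le.mpr hε)))
  have e : ∀ s, |kap ε N s| = (Set.Ioo ε N).indicator (fun s => 1 / s) s
      + (Set.Ioo ε N).indicator (fun s => 1 / s) (-s) := by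
    intro s
    unfold kap
    simp only [Set.indicator_apply, Set.mem_Ioo]
    rcases lt_trichotomy s 0 with h | h | h
    · have h1 : ¬ (ε < s ∧ s < N) := fun hc => by linarith [hc.1]
      rw [abs_of_neg h, if_neg h1]
      by_cases h2 : ε < -s ∧ -s < N
      · rw [if_pos h2, if_pos h2, abs_div, abs_one, abs_of_neg h]; ring
      · rw [if_neg h2, if_neg h2]; simp
    · subst h
      simp [not_lt.mpr hε.le]
    · have h1 : ¬ (ε < -s ∧ -s < N) := fun hc => by linarith [hc.1]
      rw [abs_of_pos h, if_neg h1]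
      by_cases h2 : ε < s ∧ s < N
      · rw [if_pos h2, abs_div, abs_one, abs_of_pos h]; ring
      · rw [if_neg h2]; simp
  have hi : Integrable (fun s => |kap ε N s|) := by
    have := key.1
    refine this.congr ?_
    filter_upwards with s
    exact (e s).symm
  refine ⟨?_, ?_⟩
  · rw [← integrable_norm_iff (kap_meas ε N).aestronglyMeasurable]
    simpa [Real.norm_eq_abs] using hi
  · rw [← key.2]
    exact integral_congr_ae (Filter.Eventually.of_forall e)

theorem kap_L2 (ε N : ℝ) (hε : 0 < ε) (hN : ε < N) :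
    Integrable (fun s => kap ε N s ^ 2) ∧ ∫ s, kap ε N s ^ 2 ≤ 2 / ε := by
  have hN0 : 0 < N := hε.trans hN
  have hv : ∫ s in ε..N, 1 / s ^ 2 = 1 / ε - 1 / N := by
    have hd : ∀ s ∈ Set.uIcc ε N, HasDerivAt (fun s : ℝ => - s⁻¹) (1 / s ^ 2) s := by
      intro s hs
      rw [Set.uIcc_of_le hN.le] at hs
      have hs0 : s ≠ 0 := (hε.trans_le hs.1).ne'
      have h3 : HasDerivAt (fun s : ℝ => - s⁻¹) (-(-(s ^ 2)⁻¹)) s := (hasDerivAt_inv hs0).fun_neg
      rw [neg_neg] at h3
      rw [one_div]
      exact h3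
    rw [intervalIntegral.integral_eq_sub_of_hasDerivAt hd]
    · field_simp
      ring
    · apply ContinuousOn.intervalIntegrable
      rw [Set.uIcc_of_le hN.le]
      refine ContinuousOn.div continuousOn_const (continuousOn_id.pow 2) ?_
      intro s hs
      exact pow_ne_zero 2 (hε.trans_le hs.1).ne'
  have key := kap_aux (fun s => 1 / s ^ 2) ε N (1 / ε - 1 / N) hε hN
    (by
      refine ContinuousOn.div continuousOn_const (continuousOn_id.pow 2) ?_
      intro s hs
      exact pow_ne_zero 2 (hε.trans_le hs.1).ne') hv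
  have e : ∀ s, kap ε N s ^ 2 = (Set.Ioo ε N).indicator (fun s => 1 / s ^ 2) s
      + (Set.Ioo ε N).indicator (fun s => 1 / s ^ 2) (-s) := by
    intro s
    unfold kap
    simp only [Set.indicator_apply, Set.mem_Ioo]
    rcases lt_trichotomy s 0 with h | h | h
    · have h1 : ¬ (ε < s ∧ s < N) := fun hc => by linarith [hc.1]
      rw [abs_of_neg h, if_neg h1]
      by_cases h2 : ε < -s ∧ -s < N
      · rw [if_pos h2, if_pos h2]; rw [div_pow, one_pow, neg_sq, zero_add]
      · rw [if_neg h2, if_neg h2]; simp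
    · subst h
      simp [not_lt.mpr hε.le]
    · have h1 : ¬ (ε < -s ∧ -s < N) := fun hc => by linarith [hc.1]
      rw [abs_of_pos h, if_neg h1]
      by_cases h2 : ε < s ∧ s < N
      · rw [if_pos h2, if_pos h2]; rw [div_pow, one_pow, add_zero]
      · rw [if_neg h2, if_neg h2]; simp
  refine ⟨key.1.congr (Filter.Eventually.of_forall fun s => (e s).symm), ?_⟩
  have : ∫ s, kap ε N s ^ 2 = 2 * (1 / ε - 1 / N) := by
    rw [← key.2]
    exact integral_congr_ae (Filter.Eventually.of_forall e)
  rw [this]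
  have h1 : 0 < 1 / N := by positivity
  have h2 : 2 / ε = 2 * (1 / ε) := by ring
  rw [h2]
  linarith

end

end Pool.Agent.LG704
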