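import Pool.Agent.Helper704.LG.Pre

set_option autoImplicit false
set_option maxHeartbeats 4000000
set_option linter.unusedVariables false
open MeasureTheory Finset

namespace Pool.Agent.LG704

open Helper912.LG

noncomputable section

theorem maj_int_p1 (ε : ℝ) (hε : 0 < ε) :
    Integrable (fun t : ℝ => if |t| ≤ ε then 2 / ε else 0) ∧
    ∫ t : ℝ, (if |t| ≤ ε then 2 / ε else 0) = 4 := by
  have h1 : (fun t : ℝ => if |t| ≤ ε then 2 / ε else 0) =
      Set.indicator (Set.Icc (-ε) ε) (fun _ => 2 / ε) := by
    funext t
    rw [Set.indicator_apply]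
    simp only [Set.mem_Icc, abs_le]
  rw [h1]
  constructor
  · rw [integrable_indicator_iff measurableSet_Icc]
    refine integrableOn_const ?_
    rw [Real.volume_Icc]
    exact ENNReal.ofReal_ne_top
  · rw [integral_indicator measurableSet_Icc, setIntegral_const, smul_eq_mul, Measure.real,
      Real.volume_Icc, ENNReal.toReal_ofReal (by linarith)]
    field_simp
    ring

theorem maj_int_p3 (B N : ℝ) (hN : 0 < N) :
    Integrable (fun t : ℝ => if |t| < 2 * N then B / N else 0) ∧
    ∫ t : ℝ, (if |t| < 2 * N then B / N else 0) = 4 * B := by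
  have h1 : (fun t : ℝ => if |t| < 2 * N then B / N else 0) =
      Set.indicator (Set.Ioo (-(2 * N)) (2 * N)) (fun _ => B / N) := by
    funext t
    rw [Set.indicator_apply]
    simp only [Set.mem_Ioo, abs_lt]
  rw [h1]
  constructor
  · rw [integrable_indicator_iff measurableSet_Ioo]
    refine integrableOn_const ?_
    rw [Real.volume_Ioo]
    exact ENNReal.ofReal_ne_top
  · rw [integral_indicator measurableSet_Ioo, setIntegral_const, smul_eq_mul, Measure.real,
      Real.volume_Ioo, ENNReal.toReal_ofReal (by linarith)]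
    field_simp
    ring

theorem maj_int_p2 (A ε N : ℝ) (hA : 0 ≤ A) (hε : 0 < ε) (hN : ε < N) :
    Integrable (fun t : ℝ => if ε < |t| ∧ |t| < 2 * N then A / |t| else 0) ∧
    ∫ t : ℝ, (if ε < |t| ∧ |t| < 2 * N then A / |t| else 0) ≤
      2 * A * (1 + Real.log (N / ε)) := by
  have hN0 : 0 < N := hε.trans hN
  constructor
  · have h1 : Integrable (Set.indicator (Set.Ioo (-(2 * N)) (2 * N)) (fun _ : ℝ => A / ε)) := by
      rw [integrable_indicator_iff measurableSet_Ioo]
      refine integrableOn_const ?_
      rw [Real.volume_Ioo]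
      exact ENNReal.ofReal_ne_top
    refine Integrable.mono' h1 ?_ ?_
    · apply Measurable.aestronglyMeasurable
      apply Measurable.ite
      · apply MeasurableSet.inter
        · exact measurableSet_lt measurable_const measurable_abs
        · exact measurableSet_lt measurable_abs measurable_const
      · exact measurable_const.div measurable_abs
      · exact measurable_const
    · refine Filter.Eventually.of_forall fun t => ?_
      by_cases h : ε < |t| ∧ |t| < 2 * N
      · have ht0 : 0 < |t| := hε.trans h.1
        rw [if_pos h, Real.norm_of_nonneg (by positivity),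
          Set.indicator_of_mem (show t ∈ Set.Ioo (-(2 * N)) (2 * N) from abs_lt.mp h.2)]
        exact div_le_div_of_nonneg_left hA hε h.1.le
      · rw [if_neg h, norm_zero]
        apply Set.indicator_nonneg
        intro _ _
        positivity
  · have h2 := integral_comp_abs (f := fun s : ℝ => if ε < s ∧ s < 2 * N then A / s else 0)
    rw [h2]
    have h3 : (fun s : ℝ => if ε < s ∧ s < 2 * N then A / s else 0) =
        Set.indicator (Set.Ioo ε (2 * N)) (fun s => A / s) := by
      funext s
      rw [Set.indicator_apply]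
      simp only [Set.mem_Ioo]
    rw [h3, setIntegral_indicator measurableSet_Ioo]
    have h4 : Set.Ioi (0:ℝ) ∩ Set.Ioo ε (2 * N) = Set.Ioo ε (2 * N) := by
      apply Set.inter_eq_self_of_subset_right
      intro s hs
      exact hε.trans hs.1
    rw [h4, ← integral_Ioc_eq_integral_Ioo, ← intervalIntegral.integral_of_le (by linarith)]
    have h5 : ∫ s in ε..(2 * N), A / s = A * Real.log (2 * N / ε) := by
      have : ∀ s : ℝ, A / s = A * s⁻¹ := fun s => div_eq_mul_inv A s
      simp_rw [this]
      rw [intervalIntegral.integral_const_mul, integral_inv_of_pos hε (by linarith)]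
    rw [h5]
    have h6 : Real.log (2 * N / ε) ≤ 1 + Real.log (N / ε) := by
      have h7 : 2 * N / ε = 2 * (N / ε) := by ring
      rw [h7, Real.log_mul (by norm_num) (by positivity)]
      have := Real.log_two_lt_d9
      linarith
    have h8 := mul_le_mul_of_nonneg_left h6 hA
    linarith



/-- integrals of the majorant -/
theorem maj_int (A B ε N : ℝ) (hA : 0 ≤ A) (hB : 0 ≤ B) (hε : 0 < ε) (hN : ε < N) :
    Integrable (fun t : ℝ => (if |t| ≤ ε then 2 / ε else 0) +
      (if ε < |t| ∧ |t| < 2 * N then A / |t| else 0) + (if |t| < 2 * N then B / N else 0)) ∧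
    ∫ t : ℝ, ((if |t| ≤ ε then 2 / ε else 0) +
      (if ε < |t| ∧ |t| < 2 * N then A / |t| else 0) + (if |t| < 2 * N then B / N else 0))
      ≤ 4 + 2 * A * (1 + Real.log (N / ε)) + 4 * B := by
  obtain ⟨a1, b1⟩ := maj_int_p1 ε hε
  obtain ⟨a2, b2⟩ := maj_int_p2 A ε N hA hε hN
  obtain ⟨a3, b3⟩ := maj_int_p3 B N (hε.trans hN)
  have a12 : Integrable (fun t : ℝ => (if |t| ≤ ε then 2 / ε else 0) +
      (if ε < |t| ∧ |t| < 2 * N then A / |t| else 0)) := a1.add a2
  refine ⟨a12.add a3, ?_⟩
  rw [integral_add a12 a3, integral_add a1 a2, b1, b3]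
  linarith

end

end Pool.Agent.LG704
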