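import Pool.Agent.Helper704.LG.Pre

set_option autoImplicit false
set_option maxHeartbeats 4000000
open MeasureTheory Finset

namespace Pool.Agent.LG704

open Helper912.LG

noncomputable section

theorem ni_translate {f : ℝ × ℝ → ℝ} (hf : Ni f) (a : ℝ × ℝ) :
    Ni (fun q => f (q + a)) ∧ nm 3 (fun q => f (q + a)) = nm 3 f := by
  refine ⟨⟨?_, ?_, ?_⟩, ?_⟩
  · exact hf.meas.comp (measurable_add_const a)
  · exact hf.supp.comp_homeomorph (Homeomorph.addRight a)
  · obtain ⟨M, hM⟩ := hf.bdd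
    exact ⟨M, fun p => hM _⟩
  · unfold nm
    congr 1
    exact eLpNorm_comp_measurePreserving hf.meas.aestronglyMeasurable
      (measurePreserving_add_right volume a)

theorem T3_shift (C : ℝ) (κ : ℝ → ℝ)
    (hC : ∀ (f g h : ℝ × ℝ → ℝ), Ni f → Ni g → Ni h →
      |T3 κ f g h| ≤ C * nm 3 f * nm 3 g * nm 3 h)
    (a : ℝ) (f g h : ℝ × ℝ → ℝ) (hf : Ni f) (hg : Ni g) (hh : Ni h) :
    |T3 (fun s => κ (s + a)) f g h| ≤ C * nm 3 f * nm 3 g * nm 3 h := by
  obtain ⟨hf1, hf2⟩ := ni_translate hf (-a, 0)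
  obtain ⟨hh1, hh2⟩ := ni_translate hh (0, -a)
  have h0 := hC _ _ _ hf1 hg hh1
  rw [hf2, hh2] at h0
  have i2 : (volume : Measure (ℝ × ℝ)).IsAddLeftInvariant := inferInstance
  have i3 : ((volume : Measure ℝ).prod (volume : Measure (ℝ × ℝ))).IsAddLeftInvariant :=
    inferInstance
  have i4 : (volume : Measure (ℝ × ℝ × ℝ)).IsAddLeftInvariant := i3
  have i5 : (volume : Measure (ℝ × ℝ × ℝ)).IsAddRightInvariant := inferInstance
  unfold T3 at h0 ⊢
  have e := integral_add_right_eq_self (μ := (volume : Measure (ℝ × ℝ × ℝ)))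
    (fun p : ℝ × ℝ × ℝ => Helper912.Z.F3 f g h p * κ (p.1 + p.2.1 + p.2.2 + a))
    ((-a, 0, 0) : ℝ × ℝ × ℝ)
  rw [← e]
  refine le_trans (le_of_eq ?_) h0
  congr 2
  funext p
  obtain ⟨x, y, z⟩ := p
  simp only [Helper912.Z.F3, Prod.mk_add_mk, add_zero]
  have : x + -a + y + z + a = x + y + z := by ring
  rw [this]

end

end Pool.Agent.LG704
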