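import Pool.Agent.Helper704.LG.K_int
import Pool.Agent.Helper704.LG.K_hold
import Pool.Agent.Helper704.LG.K_shift
import Pool.Agent.Helper704.LG.K_kap
import Pool.Agent.Helper704.LG.K_maj
import Pool.Agent.Helper704.LG.K_er

set_option autoImplicit false
set_option maxHeartbeats 4000000
set_option linter.unusedVariables false
open MeasureTheory Finset

namespace Pool.Agent.LG704

open Helper912.LG

noncomputable section

theorem er_meas (ε N t : ℝ) : Measurable (er ε N t) := by
  unfold er
  have h1 := kap_meas ε N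
  have h2 : Measurable fun s => kap ε N (s + t) := h1.comp (measurable_add_const t)
  exact (h1.mul h2).sub ((h1.sub h2).const_mul _)

/-- near case -/
theorem near (ε N t : ℝ) (hε : 0 < ε) (hN : ε < N) (a : ℝ)
    (f g h : ℝ × ℝ → ℝ) (hf : Ni f) (hg : Ni g) (hh : Ni h) :
    |T3 (fun s => kap ε N (s + a) * kap ε N (s + a + t)) f g h|
      ≤ (2 / ε) * nm 3 f * nm 3 g * nm 3 h := by
  have h1 := kap_L2 ε N hε hN
  have hm := kap_meas ε N
  have m1 : Measurable fun s => kap ε N s * kap ε N (s + t) :=
    hm.mul (hm.comp (measurable_add_const t))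
  have i2 : Integrable (fun s => kap ε N (s + t) ^ 2) := h1.1.comp_add_right t
  have e2 : ∫ s, kap ε N (s + t) ^ 2 = ∫ s, kap ε N s ^ 2 :=
    integral_add_right_eq_self (fun s => kap ε N s ^ 2) t
  have i1 : Integrable fun s => kap ε N s * kap ε N (s + t) := by
    refine Integrable.mono' (h1.1.add i2) m1.aestronglyMeasurable ?_
    filter_upwards with s
    rw [Real.norm_eq_abs, abs_mul]
    simp only [Pi.add_apply]
    nlinarith [sq_nonneg (|kap ε N s| - |kap ε N (s + t)|), sq_abs (kap ε N s),
      sq_abs (kap ε N (s + t)), sq_nonneg (kap ε N s), sq_nonneg (kap ε N (s + t))]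
  have b1 : ∫ s, |kap ε N s * kap ε N (s + t)| ≤ 2 / ε := by
    have : ∫ s, |kap ε N s * kap ε N (s + t)| ≤ ∫ s, (1 / 2) * (kap ε N s ^ 2 + kap ε N (s + t) ^ 2) := by
      refine integral_mono i1.abs ((h1.1.add i2).const_mul _) ?_
      intro s
      simp only
      rw [abs_mul]
      nlinarith [sq_nonneg (|kap ε N s| - |kap ε N (s + t)|), sq_abs (kap ε N s),
        sq_abs (kap ε N (s + t))]
    rw [integral_const_mul, integral_add h1.1 i2, e2] at this
    linarith [h1.2]
  have key := T3_shift (2 / ε) (fun s => kap ε N s * kap ε N (s + t))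
    (fun f g h hf hg hh => by
      refine (T3_hold _ m1 i1 f g h hf hg hh).trans ?_
      have n1 : 0 ≤ nm 3 f := ENNReal.toReal_nonneg
      have n2 : 0 ≤ nm 3 g := ENNReal.toReal_nonneg
      have n3 : 0 ≤ nm 3 h := ENNReal.toReal_nonneg
      gcongr) a f g h hf hg hh
  exact key

/-- far case -/
theorem far (ε N t : ℝ) (hε : 0 < ε) (hN : ε < N) (ht : N / 2 < |t|) (a : ℝ)
    (f g h : ℝ × ℝ → ℝ) (hf : Ni f) (hg : Ni g) (hh : Ni h) :
    |T3 (fun s => kap ε N (s + a) * kap ε N (s + a + t)) f g h|
      ≤ (16 * Real.log (N / ε) / N) * nm 3 f * nm 3 g * nm 3 h := by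
  have h1 := kap_L1 ε N hε hN
  have hN0 : 0 < N := hε.trans hN
  have hm := kap_meas ε N
  have m1 : Measurable fun s => kap ε N s * kap ε N (s + t) :=
    hm.mul (hm.comp (measurable_add_const t))
  have i2 : Integrable (fun s => kap ε N (s + t)) := h1.1.comp_add_right t
  have e2 : ∫ s, |kap ε N (s + t)| = ∫ s, |kap ε N s| :=
    integral_add_right_eq_self (fun s => |kap ε N s|) t
  have pt : ∀ s, |kap ε N s * kap ε N (s + t)| ≤ (4 / N) * (|kap ε N s| + |kap ε N (s + t)|) := by
    intro s
    rw [abs_mul]
    have a1 : 0 ≤ |kap ε N s| := abs_nonneg _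
    have a2 : 0 ≤ |kap ε N (s + t)| := abs_nonneg _
    have tri : |t| ≤ |s| + |s + t| := by
      have := abs_sub (s + t) s
      have e : s + t - s = t := by ring
      rw [e] at this
      linarith
    by_cases hc : N / 4 ≤ |s|
    · have : |kap ε N s| ≤ 4 / N := by
        unfold kap
        split_ifs with hh
        · rw [abs_div, abs_one, div_le_div_iff₀ (by linarith [hh.1]) hN0]
          linarith
        · rw [abs_zero]; positivity
      have h5 : (0:ℝ) ≤ 4 / N := by positivity
      nlinarith [mul_nonneg h5 a1, mul_le_mul_of_nonneg_right this a2]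
    · push Not at hc
      have hc2 : N / 4 ≤ |s + t| := by linarith
      have : |kap ε N (s + t)| ≤ 4 / N := by
        unfold kap
        split_ifs with hh
        · rw [abs_div, abs_one, div_le_div_iff₀ (by linarith [hh.1]) hN0]
          linarith
        · rw [abs_zero]; positivity
      have h5 : (0:ℝ) ≤ 4 / N := by positivity
      nlinarith [mul_nonneg h5 a2, mul_le_mul_of_nonneg_left this a1]
  have i1 : Integrable fun s => kap ε N s * kap ε N (s + t) := by
    refine Integrable.mono' ((h1.1.abs.add i2.abs).const_mul (4 / N)) m1.aestronglyMeasurable ?_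
    filter_upwards with s
    exact pt s
  have b1 : ∫ s, |kap ε N s * kap ε N (s + t)| ≤ 16 * Real.log (N / ε) / N := by
    have : ∫ s, |kap ε N s * kap ε N (s + t)| ≤
        ∫ s, (4 / N) * (|kap ε N s| + |kap ε N (s + t)|) :=
      integral_mono i1.abs ((h1.1.abs.add i2.abs).const_mul _) pt
    rw [integral_const_mul, integral_add h1.1.abs i2.abs, e2, h1.2] at this
    refine this.trans (le_of_eq ?_)
    field_simp
    ring
  have key := T3_shift (16 * Real.log (N / ε) / N) (fun s => kap ε N s * kap ε N (s + t))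
    (fun f g h hf hg hh => by
      refine (T3_hold _ m1 i1 f g h hf hg hh).trans ?_
      have n1 : 0 ≤ nm 3 f := ENNReal.toReal_nonneg
      have n2 : 0 ≤ nm 3 g := ENNReal.toReal_nonneg
      have n3 : 0 ≤ nm 3 h := ENNReal.toReal_nonneg
      gcongr) a f g h hf hg hh
  exact key

/-- middle case -/
theorem mid (C : ℝ) (ε N t : ℝ) (hε : 0 < ε) (hN : ε < N)
    (hC : ∀ (f g h : ℝ × ℝ → ℝ), Ni f → Ni g → Ni h →
      |T3 (kap ε N) f g h| ≤ C * nm 3 f * nm 3 g * nm 3 h)
    (ht : ε < |t|) (ht2 : |t| ≤ N / 2) (a : ℝ)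
    (f g h : ℝ × ℝ → ℝ) (hf : Ni f) (hg : Ni g) (hh : Ni h) :
    |T3 (fun s => kap ε N (s + a) * kap ε N (s + a + t)) f g h|
      ≤ ((2 * C + 8) / |t|) * nm 3 f * nm 3 g * nm 3 h := by
  have hm := kap_meas ε N
  have ht0 : 0 < |t| := hε.trans ht
  refine T3_shift ((2 * C + 8) / |t|) (fun s => kap ε N s * kap ε N (s + t)) ?_ a f g h hf hg hh
  intro f g h hf hg hh
  have e := er_L1 ε N t hε hN ht ht2
  have dec : T3 (fun s => kap ε N s * kap ε N (s + t)) f g h
      = (1 / t) * (T3 (kap ε N) f g h - T3 (fun s => kap ε N (s + t)) f g h)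
        + T3 (er ε N t) f g h := by
    have j1 := T3_integrable (kap ε N) hm (1 / ε) (kap_abs ε N hε) f g h hf hg hh
    have j2 := T3_integrable (fun s => kap ε N (s + t)) (hm.comp (measurable_add_const t)) (1 / ε)
      (fun s => kap_abs ε N hε _) f g h hf hg hh
    have j3 := T3_integrable (er ε N t) (er_meas ε N t) ((1 / ε) * (1 / ε) + |1 / t| * (1 / ε + 1 / ε))
      (fun s => by
        unfold er
        refine (abs_sub _ _).trans (add_le_add ?_ ?_)
        · rw [abs_mul]
          exact mul_le_mul (kap_abs ε N hε _) (kap_abs ε N hε _) (abs_nonneg _) (by positivity)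
        · rw [abs_mul]
          refine mul_le_mul_of_nonneg_left ?_ (abs_nonneg _)
          exact (abs_sub _ _).trans (add_le_add (kap_abs ε N hε _) (kap_abs ε N hε _)))
      f g h hf hg hh
    have h4 := (j1.sub j2).const_mul (1 / t)
    have h5 := integral_add h4 j3
    have h6 := integral_const_mul (1 / t) ((fun p : ℝ × ℝ × ℝ => Helper912.Z.F3 f g h p *
      kap ε N (p.1 + p.2.1 + p.2.2)) - fun p : ℝ × ℝ × ℝ => Helper912.Z.F3 f g h p *
      kap ε N (p.1 + p.2.1 + p.2.2 + t)) (μ := volume)
    have h7 := integral_sub' j1 j2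
    rw [h6, h7] at h5
    unfold T3
    rw [← h5]
    refine integral_congr_ae ?_
    filter_upwards with p
    simp only [Pi.sub_apply]
    unfold er
    ring
  rw [dec]
  have c1 := hC f g h hf hg hh
  have c2 := T3_shift C (kap ε N) hC t f g h hf hg hh
  have c3 := T3_hold (er ε N t) (er_meas ε N t) e.1 f g h hf hg hh
  have n1 : 0 ≤ nm 3 f := ENNReal.toReal_nonneg
  have n2 : 0 ≤ nm 3 g := ENNReal.toReal_nonneg
  have n3 : 0 ≤ nm 3 h := ENNReal.toReal_nonneg
  have c4 : |T3 (er ε N t) f g h| ≤ (8 / |t|) * nm 3 f * nm 3 g * nm 3 h := by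
    refine c3.trans ?_
    have := e.2
    gcongr
  have c5 : |(1 / t) * (T3 (kap ε N) f g h - T3 (fun s => kap ε N (s + t)) f g h)|
      ≤ (1 / |t|) * (2 * (C * nm 3 f * nm 3 g * nm 3 h)) := by
    rw [abs_mul, abs_div, abs_one]
    refine mul_le_mul_of_nonneg_left ?_ (by positivity)
    refine (abs_sub _ _).trans ?_
    linarith
  refine (abs_add_le _ _).trans ?_
  refine (add_le_add c5 c4).trans (le_of_eq ?_)
  field_simp

theorem P1_of_L3 : L3 → P1 := by
  rintro ⟨C, hC0, hC⟩
  refine ⟨4 + 2 * (2 * C + 8) + 4 * 16, by positivity, fun ε N hε hN => ?_⟩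
  have hN0 : 0 < N := hε.trans hN
  have hL : 0 ≤ Real.log (N / ε) := Real.log_nonneg (by rw [one_le_div hε]; exact hN.le)
  have hmj := maj_int (2 * C + 8) (16 * Real.log (N / ε)) ε N (by positivity) (by positivity) hε hN
  refine ⟨fun t : ℝ => (if |t| ≤ ε then 2 / ε else 0) +
      (if ε < |t| ∧ |t| < 2 * N then (2 * C + 8) / |t| else 0) +
      (if |t| < 2 * N then (16 * Real.log (N / ε)) / N else 0), ?_, ?_, hmj.1, ?_, ?_⟩
  · have m0 : Measurable fun s : ℝ => |s| := measurable_id.abs
    refine (Measurable.add ?_ ?_).add ?_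
    · exact Measurable.ite (measurableSet_le m0 measurable_const) measurable_const
        measurable_const
    · refine Measurable.ite ?_ (measurable_const.div m0) measurable_const
      exact (measurableSet_lt (measurable_const (a := ε)) m0).inter
        (measurableSet_lt m0 (measurable_const (a := 2 * N)))
    · exact Measurable.ite (measurableSet_lt m0 measurable_const) measurable_const
        measurable_const
  · intro t
    have a1 : (0:ℝ) ≤ if |t| ≤ ε then 2 / ε else 0 := by split_ifs <;> positivity
    have a2 : (0:ℝ) ≤ if ε < |t| ∧ |t| < 2 * N then (2 * C + 8) / |t| else 0 := by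
      split_ifs <;> positivity
    have a3 : (0:ℝ) ≤ if |t| < 2 * N then (16 * Real.log (N / ε)) / N else 0 := by
      split_ifs <;> positivity
    positivity
  · refine hmj.2.trans ?_
    nlinarith
  · intro f g h hf hg hh a t
    have n1 : 0 ≤ nm 3 f := ENNReal.toReal_nonneg
    have n2 : 0 ≤ nm 3 g := ENNReal.toReal_nonneg
    have n3 : 0 ≤ nm 3 h := ENNReal.toReal_nonneg
    have a1 : (0:ℝ) ≤ if |t| ≤ ε then 2 / ε else 0 := by split_ifs <;> positivity
    have a2 : (0:ℝ) ≤ if ε < |t| ∧ |t| < 2 * N then (2 * C + 8) / |t| else 0 := by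
      split_ifs <;> positivity
    have a3 : (0:ℝ) ≤ if |t| < 2 * N then (16 * Real.log (N / ε)) / N else 0 := by
      split_ifs <;> positivity
    by_cases c1 : |t| ≤ ε
    · refine (near ε N t hε hN a f g h hf hg hh).trans ?_
      have : 2 / ε ≤ (if |t| ≤ ε then 2 / ε else 0) +
        (if ε < |t| ∧ |t| < 2 * N then (2 * C + 8) / |t| else 0) +
        (if |t| < 2 * N then (16 * Real.log (N / ε)) / N else 0) := by
        rw [if_pos c1] at a1 ⊢
        linarith
      gcongr
    · push Not at c1
      by_cases c2 : |t| ≤ N / 2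
      · refine (mid C ε N t hε hN (fun f g h hf hg hh => hC f g h hf hg hh ε N hε hN) c1 c2 a
          f g h hf hg hh).trans ?_
        have : (2 * C + 8) / |t| ≤ (if |t| ≤ ε then 2 / ε else 0) +
          (if ε < |t| ∧ |t| < 2 * N then (2 * C + 8) / |t| else 0) +
          (if |t| < 2 * N then (16 * Real.log (N / ε)) / N else 0) := by
          rw [if_pos (show ε < |t| ∧ |t| < 2 * N from ⟨c1, by linarith⟩)] at a2 ⊢
          linarith
        gcongr
      · push Not at c2
        by_cases c3 : |t| < 2 * N
        · refine (far ε N t hε hN c2 a f g h hf hg hh).trans ?_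
          have : 16 * Real.log (N / ε) / N ≤ (if |t| ≤ ε then 2 / ε else 0) +
            (if ε < |t| ∧ |t| < 2 * N then (2 * C + 8) / |t| else 0) +
            (if |t| < 2 * N then (16 * Real.log (N / ε)) / N else 0) := by
            rw [if_pos c3] at a3 ⊢
            linarith
          gcongr
        · push Not at c3
          have hz : (fun s => kap ε N (s + a) * kap ε N (s + a + t)) = fun _ => 0 := by
            funext s
            unfold kap
            split_ifs with h1 h2
            · exfalso
              have := abs_sub (s + a + t) (s + a)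
              have e : s + a + t - (s + a) = t := by ring
              rw [e] at this
              linarith [h1.2, h2.2]
            all_goals simp
          rw [hz]
          have : T3 (fun _ => 0) f g h = 0 := by unfold T3; simp
          rw [this, abs_zero]
          positivity

end

end Pool.Agent.LG704
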