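import Pool.Agent.Helper912.LogDefs

set_option autoImplicit false
set_option maxHeartbeats 4000000
set_option linter.unusedVariables false
open MeasureTheory Finset

namespace Pool.Agent.LG704

open Helper912.LG

noncomputable section

theorem kap_meas (ε N : ℝ) : Measurable (kap ε N) := by
  unfold kap
  have m0 : Measurable fun s : ℝ => |s| := measurable_id.abs
  refine Measurable.ite ?_ (by fun_prop) measurable_const
  exact (measurableSet_lt (measurable_const (a := ε)) m0).inter
    (measurableSet_lt m0 (measurable_const (a := N)))

theorem kap_abs (ε N : ℝ) (hε : 0 < ε) (s : ℝ) : |kap ε N s| ≤ 1 / ε := by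
  unfold kap
  split_ifs with h
  · rw [abs_div, abs_one]
    exact one_div_le_one_div_of_le hε h.1.le
  · rw [abs_zero]; positivity

/-- the error kernel -/
def er (ε N t s : ℝ) : ℝ :=
  kap ε N s * kap ε N (s + t) - (1 / t) * (kap ε N s - kap ε N (s + t))

end

end Pool.Agent.LG704
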